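import Pool.Agent.Q315.CC.Plain

/-!
# The nef cone conjecture for varieties with trivial canonical class reduces to Calabi–Yau manifolds

Let `Y` be a smooth projective complex variety with `K_Y ≡ 0`. By the decomposition theorem of Beauville
and Bogomolov it has a finite étale Galois cover `X → Y` which is a product of abelian varieties,
irreducible holomorphic symplectic manifolds and strict Calabi–Yau manifolds (simply connected, of
dimension at least three, without holomorphic `p`-forms for `0 < p < dim`). For the first two kinds the
cone conjecture is known (Prendergast-Smith; Markman, Amerik–Verbitsky). We show: if it holds for the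
strict Calabi–Yau factors, it holds for `Y`. So the cone conjecture for all `Y` is equivalent to the
cone conjecture for strict Calabi–Yau manifolds, and it holds for all finite étale quotients of products
of abelian varieties and irreducible holomorphic symplectic manifolds.

The new point is the descent along `X → Y` (`Pool.Agent.Q315.CC.descent`): let `G` be the Galois group and
let `Π` be a rational polyhedral cone whose translates under `Aut(X)` cover `Nef^e(X)`. A translate `γ Π`
which meets the ample `G`-invariant classes defines the homomorphism `g ↦ γ⁻¹ g γ` of `G` to `Aut(X)`. The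
Siegel property for `Π` and the cones `g Π` (`Pool.Agent.Q315.CC.siegel`, a consequence of Dickson's lemma;
no arithmeticity is needed) shows that the actions of these homomorphisms on `N^1(X)` are finitely many;
the finiteness of `H^1(G, K)`, `K` the kernel of the action of `Aut(X)` on `N^1(X)`, an algebraic group,
shows that the homomorphisms are finitely many up to conjugation by `K`. If two of them are conjugate by
`K`, the translates differ by an automorphism which commutes with `G` and so descends to `Y`. Hence
finitely many rational polyhedral cones of `G`-invariant classes cover the ample cone of `Y` up to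
`Aut(Y)`, and a theorem of the starting library (`Pool.Agent.Y167.CData.domain`, in the style of
Looijenga) gives an exact fundamental domain.

In the definitions of `Pool.Agent.Q315.CC.Plain`, for a variety `X`: `ℝ ^ n` is `N^1(X)`, `ℤ ^ n` are the
integral classes, `N` is `Nef(X)`, `C` is `Nef(X)^e`, `deg` is the intersection number with a power of an
ample class, `Γ` is `Aut(X)`, acting by push-forward. `HasDomain` is the statement of Q1 for `X`.
-/

set_option autoImplicit false

namespace Pool.Agent.Results.MP_e49dc9_ag.ReductionToCalabiYau

open Pool.Agent.Q315.CC.Pl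

/-- `Y` has a finite Galois cover `X → Y` (with group `G` and pullback of classes `q`) such that `X` is
the product of varieties with the property `P`. -/
def HasCover {V : Type*} (d : V → ConeSpace) (P : V → Prop) (Y : V) : Prop :=
  ∃ (X : V) (G : Subgroup (d X).Γ) (q : (Fin (d Y).n → ℝ) → (Fin (d X).n → ℝ)),
    IsQuotient (d X) (d Y) G q ∧
    ∃ (m : ℕ) (Z : Fin m → V) (p : ∀ i, (Fin (d (Z i)).n → ℝ) → (Fin (d X).n → ℝ)),
      IsProduct (d X) (fun i => d (Z i)) p ∧ ∀ i, P (Z i)

/-- The known facts about the class `V` of the smooth projective varieties with numerically trivial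
canonical class and their cone data `d`: the elementary properties of the cones, the decomposition
theorem, and the cone conjecture for abelian varieties (`Ab`) and irreducible holomorphic symplectic
manifolds (`HK`); `CY` are the strict Calabi–Yau manifolds. -/
structure IsTheory {V : Type*} (d : V → ConeSpace) (Ab HK CY : V → Prop) : Prop where
  data : ∀ X, IsConeSpace (d X)
  decomposition : ∀ Y, HasCover d (fun Z => Ab Z ∨ HK Z ∨ CY Z) Y
  abelian : ∀ X, Ab X → HasDomain (d X)
  symplectic : ∀ X, HK X → HasDomain (d X)

/-- **The cone conjecture for varieties with trivial canonical class reduces to strict Calabi–Yau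
manifolds.** -/
theorem result {V : Type*} (d : V → ConeSpace) (Ab HK CY : V → Prop) (h : IsTheory d Ab HK CY) :
    (∀ Y, HasCover d (fun Z => Ab Z ∨ HK Z ∨ (CY Z ∧ HasDomain (d Z))) Y → HasDomain (d Y)) ∧
    ((∀ Y, HasDomain (d Y)) ↔ ∀ X, CY X → HasDomain (d X)) := by
  have h1 : ∀ Y, HasCover d (fun Z => Ab Z ∨ HK Z ∨ (CY Z ∧ HasDomain (d Z))) Y →
      HasDomain (d Y) := by
    rintro Y ⟨X, G, q, hq, m, Z, p, hp, hZ⟩
    refine quotient (h.data X) (h.data Y) hq (product (h.data X) (fun i => h.data (Z i)) hp fun i => ?_)
    rcases hZ i with h2 | h2 | h2
    · exact h.abelian _ h2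
    · exact h.symplectic _ h2
    · exact h2.2
  refine ⟨h1, fun h2 X _ => h2 X, fun h2 Y => h1 Y ?_⟩
  obtain ⟨X, G, q, hq, m, Z, p, hp, hZ⟩ := h.decomposition Y
  refine ⟨X, G, q, hq, m, Z, p, hp, fun i => ?_⟩
  rcases hZ i with h3 | h3 | h3
  · exact Or.inl h3
  · exact Or.inr (Or.inl h3)
  · exact Or.inr (Or.inr ⟨h3, h2 _ h3⟩)

end Pool.Agent.Results.MP_e49dc9_ag.ReductionToCalabiYau
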